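import Mathlib
import Pool.Agent.Run7.h339.Five2

/-!
# A 5-central polynomial for 5 × 5 matrices in characteristic 5

There is a polynomial in two noncommuting variables with coefficients in the field with five
elements which is `5`-central for `M_5(K)` for every infinite field `K` of characteristic `5`.
-/

set_option autoImplicit false

namespace Pool.Agent.Results.MP_5d2531_al.CharFiveExists

universe u

/-- Every value of `f` on `n × n` matrices over `K` is a scalar matrix. -/
def ScalarValued {K : Type*} [Field K] {σ : Type*} (n : ℕ) (f : FreeAlgebra K σ) : Prop :=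
  ∀ X : σ → Matrix (Fin n) (Fin n) K, ∃ c : K, FreeAlgebra.lift K X f = Matrix.scalar (Fin n) c

/-- `f` is central for `M_n(K)`: all values are scalar and `f` is not identically zero. -/
def IsCentral {K : Type*} [Field K] {σ : Type*} (n : ℕ) (f : FreeAlgebra K σ) : Prop :=
  ScalarValued n f ∧ ∃ X : σ → Matrix (Fin n) (Fin n) K, FreeAlgebra.lift K X f ≠ 0

/-- `f` is `ν`-central for `M_n(K)`: `ν` is the least positive integer with `f ^ ν` central. -/
def IsNuCentral {K : Type*} [Field K] {σ : Type*} (n ν : ℕ) (f : FreeAlgebra K σ) : Prop :=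
  0 < ν ∧ IsCentral n (f ^ ν) ∧ ∀ μ : ℕ, 0 < μ → IsCentral n (f ^ μ) → ν ≤ μ

/-- The polynomial `f` in the variables `x = 0` and `y = 1` with coefficients in the field with five
elements, as a polynomial over the field `K` of characteristic `5`. -/
noncomputable def overField (K : Type*) [Field K] [Algebra (ZMod 5) K] (f : FreeAlgebra (ZMod 5) (Fin 2)) :
    FreeAlgebra K (Fin 2) :=
  FreeAlgebra.lift (ZMod 5) (FreeAlgebra.ι K) f

theorem lift_overField {K : Type*} [Field K] [Algebra (ZMod 5) K] (f : FreeAlgebra (ZMod 5) (Fin 2))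
    (X : Fin 2 → Matrix (Fin 5) (Fin 5) K) :
    FreeAlgebra.lift K X (overField K f) = FreeAlgebra.lift (ZMod 5) X f := by
  have h : ((FreeAlgebra.lift K X).restrictScalars (ZMod 5)).comp
      (FreeAlgebra.lift (ZMod 5) (FreeAlgebra.ι K)) = FreeAlgebra.lift (ZMod 5) X := by
    apply FreeAlgebra.hom_ext
    funext k
    simp
  exact DFunLike.congr_fun h f

theorem overField_pow {K : Type*} [Field K] [Algebra (ZMod 5) K] (f : FreeAlgebra (ZMod 5) (Fin 2))
    (m : ℕ) : overField K f ^ m = overField K (f ^ m) := (map_pow _ f m).symm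

/-- There is a polynomial `f` in two variables over the field with five elements such that, for
every infinite field `K` of characteristic `5`, `f` is `5`-central for `M_5(K)`; in particular
`f` itself is not central (its values are not all scalar matrices). -/
theorem result : ∃ f : FreeAlgebra (ZMod 5) (Fin 2),
    ∀ (K : Type u) [Field K] [Infinite K] [Algebra (ZMod 5) K],
      IsNuCentral 5 5 (overField K f) ∧ ¬ ScalarValued 5 (overField K f) := by
  obtain ⟨f, hf⟩ := Run7.h339.ncentral_five
  refine ⟨f, fun K _ _ _ => ?_⟩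
  obtain ⟨h1, ⟨X, hX⟩, h3⟩ := hf K
  refine ⟨⟨by norm_num, ⟨fun Y => ?_, X, ?_⟩, fun μ hμ hc => h3 μ hμ fun Y => ?_⟩, fun hs => ?_⟩
  · obtain ⟨c, hc⟩ := h1 Y
    exact ⟨c, by rw [overField_pow, lift_overField, hc]⟩
  · rw [overField_pow, lift_overField]
    exact hX
  · obtain ⟨c, hc⟩ := hc.1 Y
    exact ⟨c, by rw [← lift_overField, ← overField_pow, hc]⟩
  · have h4 := h3 1 one_pos fun Y => by
      obtain ⟨c, hc⟩ := hs Y
      exact ⟨c, by rw [← lift_overField, ← overField_pow, pow_one, hc]⟩
    omega

end Pool.Agent.Results.MP_5d2531_al.CharFiveExists
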