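import Mathlib
import Pool.Agent.Run7.h339.Bring2
import Pool.Agent.Run7.h339.Newt

/-!
# Polynomials on 5 × 5 matrices with characteristic polynomial `x ^ 5 + a x + b`

A `5`-central polynomial for `M_5(K)` is one all whose values have characteristic polynomial
`x ^ 5 + b`.  Over every infinite field of characteristic different from `5` we find a polynomial,
not central, such that the traces of its first three powers vanish; in characteristic different
from `2`, `3`, `5` its values have characteristic polynomial `x ^ 5 + a x + b`.
-/

set_option autoImplicit false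

namespace Pool.Agent.Results.MP_5d2531_al.ThreeVanishingTraces

universe u v

/-- Every value of `f` on `n × n` matrices over `K` is a scalar matrix. -/
def ScalarValued {K : Type*} [Field K] {σ : Type*} (n : ℕ) (f : FreeAlgebra K σ) : Prop :=
  ∀ X : σ → Matrix (Fin n) (Fin n) K, ∃ c : K, FreeAlgebra.lift K X f = Matrix.scalar (Fin n) c

/-- The polynomial `f` in the variables `x = 0` and `y = 1` with coefficients in the field `k`, as a
polynomial over the extension field `K`. -/
noncomputable def overField {k : Type*} [Field k] (K : Type*) [Field K] [Algebra k K]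
    (f : FreeAlgebra k (Fin 2)) : FreeAlgebra K (Fin 2) :=
  FreeAlgebra.lift k (FreeAlgebra.ι K) f

theorem lift_overField {k : Type*} [Field k] {K : Type*} [Field K] [Algebra k K]
    (f : FreeAlgebra k (Fin 2)) (X : Fin 2 → Matrix (Fin 5) (Fin 5) K) :
    FreeAlgebra.lift K X (overField K f) = FreeAlgebra.lift k X f := by
  have h : ((FreeAlgebra.lift K X).restrictScalars k).comp
      (FreeAlgebra.lift k (FreeAlgebra.ι K)) = FreeAlgebra.lift k X := by
    apply FreeAlgebra.hom_ext
    funext i
    simp
  exact DFunLike.congr_fun h f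

/-- Let `k` be a field of characteristic different from `5`.  There is a polynomial `f` in two
variables over `k` such that for every infinite extension field `K` of `k`: `f` is not scalar valued
on `M_5(K)`, the traces of `f`, `f ^ 2`, `f ^ 3` vanish identically on `M_5(K)` and, if the
characteristic is not `2` or `3`, the characteristic polynomial of each value of `f` is of the form
`x ^ 5 + a x + b`. -/
theorem result (k : Type u) [Field k] (h5 : (5 : k) ≠ 0) : ∃ f : FreeAlgebra k (Fin 2),
    ∀ (K : Type v) [Field K] [Infinite K] [Algebra k K],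
      ¬ ScalarValued 5 (overField K f) ∧
      (∀ X : Fin 2 → Matrix (Fin 5) (Fin 5) K, ∀ j : ℕ, 1 ≤ j → j ≤ 3 →
        (FreeAlgebra.lift K X (overField K f) ^ j).trace = 0) ∧
      ((2 : k) ≠ 0 → (3 : k) ≠ 0 → ∀ X : Fin 2 → Matrix (Fin 5) (Fin 5) K, ∃ a b : K,
        (FreeAlgebra.lift K X (overField K f)).charpoly =
          Polynomial.X ^ 5 + Polynomial.C a * Polynomial.X + Polynomial.C b) := by
  obtain ⟨f, hf⟩ := Run7.h339.exists_bring_poly h5
  refine ⟨f, fun K _ _ _ => ?_⟩
  obtain ⟨h1, h2⟩ := hf K
  have h1' : ∀ X : Fin 2 → Matrix (Fin 5) (Fin 5) K, ∀ j : ℕ, 1 ≤ j → j ≤ 3 →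
      (FreeAlgebra.lift K X (overField K f) ^ j).trace = 0 := by
    intro X j hj hj3
    rw [lift_overField]
    exact h1 X j hj hj3
  refine ⟨fun hs => h2 fun X => ?_, h1', fun h20 h30 X => ?_⟩
  · obtain ⟨c, hc⟩ := hs X
    exact ⟨c, by rw [← lift_overField, hc]⟩
  · refine Run7.h339.charpoly_of_trace (fun h => h20 ?_) (fun h => h30 ?_) (h1' X)
    · exact (algebraMap k K).injective (by rw [map_ofNat, h, map_zero])
    · exact (algebraMap k K).injective (by rw [map_ofNat, h, map_zero])

end Pool.Agent.Results.MP_5d2531_al.ThreeVanishingTraces
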